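import Pool.Agent.Helper857.PVi
import Pool.Agent.Helper857.PVk
import Pool.Agent.Helper857.PVm
import Pool.Agent.Helper857.PVo
import Pool.Agent.Helper857.PVq

/-!
Quadraticity of pinched Veronese algebras `PV(n,d,s)` over any field:
* `s = 2`, complete answer: for `n ≥ 3` and `d ≥ 3` (the other pairs give ordinary Veronese
  rings), `PV(n,d,2)` is quadratic if and only if `n = 3` or `d ≤ 4`;
* `s = d - 1`, complete answer: `PV(n,d,d-1)` (all monomials of degree `d` which are not
  squarefree) is quadratic for all `n` and all `d ≥ 3`;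
* `s = n - 1`, complete answer: `PV(s+1,d,s)` (all monomials of degree `d` missing at least one
  variable) is quadratic for all `s ≥ 2` and all `d ≥ 1`;
* for every `s ≥ 3`, `PV(n,d,s)` is not quadratic whenever `n ≥ 3 s` and `d ≥ 2 ^ (3 s - 5)` or
  `d ≥ 64 (s - 2) ^ 2` (so quadratic growth of `d` in `s` is enough).

`Gen n d s` is the set of exponent vectors of the generating monomials, `Phi` the presentation
map `t_m ↦ m`, and `IsQuadratic K n d s` says that the kernel of `Phi` is generated by its
homogeneous elements of degree 2 (all in `Pool.Agent.Helper857.PVa`).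
-/

set_option autoImplicit false

namespace Pool.Agent.Results.MP_e26c3f_al.AllFamilies

open Pool.Agent.Helper857

theorem result (K : Type) [Field K] :
    (∀ n d : ℕ, 3 ≤ n → 3 ≤ d → (PV.IsQuadratic K n d 2 ↔ (n = 3 ∨ d ≤ 4))) ∧
    (∀ n d : ℕ, 3 ≤ d → PV.IsQuadratic K n d (d - 1)) ∧
    (∀ s d : ℕ, 2 ≤ s → 1 ≤ d → PV.IsQuadratic K (s + 1) d s) ∧
    (∀ n d s : ℕ, 3 ≤ s → 3 * s ≤ n → (2 ^ (3 * s - 5) ≤ d ∨ 64 * (s - 2) ^ 2 ≤ d) →
      ¬ PV.IsQuadratic K n d s) := by
  refine ⟨?_, ?_, fun s d hs hd => PV.full_quad K s d hs hd, ?_⟩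
  · intro n d hn hd
    constructor
    · intro h
      by_contra hcon
      push Not at hcon
      exact PV.two_not K n d (by omega) (by omega) h
    · rintro (rfl | h4)
      · exact PV.full_quad K 2 d (by omega) (by omega)
      · have : d = 3 ∨ d = 4 := by omega
        rcases this with rfl | rfl
        · exact PV.cubic_quad K n
        · exact PV.quartic_quad K n
  · intro n d hd
    by_cases h3 : d = 3
    · subst h3
      exact PV.cubic_quad K n
    · obtain ⟨r, rfl⟩ : ∃ r, d = r + 2 := ⟨d - 2, by omega⟩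
      exact PV.nonsq_quad K n r (by omega)
  · intro n d s hs hn hd
    obtain ⟨q, rfl⟩ : ∃ q, s = q + 3 := ⟨s - 3, by omega⟩
    rcases hd with hd | hd
    · apply PV.gen_not K n d q hn
      have h1 : 3 * (q + 3) - 5 = 4 + 3 * q := by omega
      rw [h1, pow_add, pow_mul] at hd
      norm_num at hd
      exact hd
    · apply PV2.gen_not K n d q hn
      have h1 : q + 3 - 2 = q + 1 := by omega
      rw [h1] at hd
      exact hd

end Pool.Agent.Results.MP_e26c3f_al.AllFamilies
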