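import Pool.Agent.Helper857.PVd

/-!
Pinched Veronese algebras: for `s = 2` the algebra `PV(n,d,2)` is not quadratic whenever
`n ≥ 4` and `d ≥ 5`; for every `s ≥ 3` the algebra `PV(n,d,s)` is not quadratic whenever
`n ≥ 3 s` and `d ≥ 2 ^ (3 s - 5)`. Every field is allowed.

`Gen n d s` is the set of exponent vectors of the generating monomials, `Phi` the presentation
map `t_m ↦ m`, and `IsQuadratic K n d s` says that the kernel of `Phi` is generated by its
homogeneous elements of degree 2 (all in `Pool.Agent.Helper857.PVa`).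
-/

set_option autoImplicit false

namespace Pool.Agent.Results.MP_e26c3f_al.PinchedNotQuadratic

open Pool.Agent.Helper857.PV

theorem result (K : Type) [Field K] :
    (∀ n d : ℕ, 4 ≤ n → 5 ≤ d → ¬ IsQuadratic K n d 2) ∧
    (∀ n d s : ℕ, 3 ≤ s → 3 * s ≤ n → 2 ^ (3 * s - 5) ≤ d → ¬ IsQuadratic K n d s) := by
  refine ⟨fun n d hn hd => two_not K n d hn hd, ?_⟩
  intro n d s hs hn hd
  obtain ⟨q, rfl⟩ : ∃ q, s = q + 3 := ⟨s - 3, by omega⟩
  apply gen_not K n d q hn
  have h1 : 3 * (q + 3) - 5 = 4 + 3 * q := by omega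
  rw [h1, pow_add, pow_mul] at hd
  norm_num at hd
  exact hd

end Pool.Agent.Results.MP_e26c3f_al.PinchedNotQuadratic
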