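import Pool.Agent.Helper857.PVd
import Pool.Agent.Helper857.PVg
import Pool.Agent.Helper857.PVi
import Pool.Agent.Helper857.PVk

/-!
Complete answer for `s = 2`: for `n ≥ 3` and `d ≥ 3` (the remaining pairs `(n,d)` give ordinary
Veronese rings) the pinched Veronese algebra `PV(n,d,2)` is quadratic if and only if `n = 3` or
`d ≤ 4`. In addition, for every `s ≥ 3` the algebra `PV(n,d,s)` is not quadratic whenever
`n ≥ 3 s` and `d ≥ 2 ^ (3 s - 5)`. Every field is allowed.

`Gen n d s` is the set of exponent vectors of the generating monomials, `Phi` the presentation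
map `t_m ↦ m`, and `IsQuadratic K n d s` says that the kernel of `Phi` is generated by its
homogeneous elements of degree 2 (all in `Pool.Agent.Helper857.PVa`).
-/

set_option autoImplicit false

namespace Pool.Agent.Results.MP_e26c3f_al.SupportTwoClassification

open Pool.Agent.Helper857.PV

theorem result (K : Type) [Field K] :
    (∀ n d : ℕ, 3 ≤ n → 3 ≤ d → (IsQuadratic K n d 2 ↔ (n = 3 ∨ d ≤ 4))) ∧
    (∀ n d s : ℕ, 3 ≤ s → 3 * s ≤ n → 2 ^ (3 * s - 5) ≤ d → ¬ IsQuadratic K n d s) := by
  refine ⟨?_, ?_⟩
  · intro n d hn hd
    constructor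
    · intro h
      by_contra hcon
      push Not at hcon
      exact two_not K n d (by omega) (by omega) h
    · rintro (rfl | h4)
      · exact three_quad K d (by omega)
      · have : d = 3 ∨ d = 4 := by omega
        rcases this with rfl | rfl
        · exact cubic_quad K n
        · exact quartic_quad K n
  · intro n d s hs hn hd
    obtain ⟨q, rfl⟩ : ∃ q, s = q + 3 := ⟨s - 3, by omega⟩
    apply gen_not K n d q hn
    have h1 : 3 * (q + 3) - 5 = 4 + 3 * q := by omega
    rw [h1, pow_add, pow_mul] at hd
    norm_num at hd
    exact hd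

end Pool.Agent.Results.MP_e26c3f_al.SupportTwoClassification
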